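import Pool.Agent.Y842.PH.Tri
import Pool.Agent.Y304.U.Avc
import Pool.Agent.Y304.U.Pw
import Pool.Agent.TH823.MRS.Fun
import Pool.Agent.Y842.EL.One
import Pool.Agent.Q40.PM.Tor

/-!
# Möbius and Liouville in short intervals against band limited sequences

For a closed set `K` of frequencies of measure `|K|`, the supremum over ALL sequences of absolute
value at most one with spectrum in `K` is taken inside the average over the short intervals of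
length `H`. The average is at most `√(ρ |K|) H`, with `ρ = 1` for `λ` and `ρ = 6/π²` for `μ`. For
rotations of the torus `ℝ^d/ℤ^d` by the elements of a closed set `G` and a continuous function
within `τ` of the trigonometric polynomial `∑_{k ∈ F} c_k e(k x)`, the average of the supremum over
all rotations in `G` and all starting points is at most `(∑_k |c_k| √(ρ |k G|) + τ) H`.
-/

set_option autoImplicit false

open Finset Filter

namespace Pool.Agent.Results.MP_663568_nt.FrequencySetsOfPositiveMeasure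

open Classical in
/-- `E` has logarithmic density zero -/
def LogDensityZero (E : Set ℕ) : Prop := Tendsto
  (fun X : ℕ => (∑ n ∈ Icc 1 X, if n ∈ E then (1 : ℝ) / n else 0) / Real.log X) atTop (nhds 0)

/-- The sequence `a` has its spectrum in `K`: it is annihilated by each absolutely summable sequence
`g` whose Fourier series `∑ g(n) e(n η)` vanishes on an open set containing `K`. -/
def SpectrumIn (K : Set UnitAddCircle) (a : ℤ → ℂ) : Prop :=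
  ∀ g : ℤ → ℂ, Summable (fun n => ‖g n‖) →
    (∃ U : Set UnitAddCircle, IsOpen U ∧ K ⊆ U ∧ ∀ η ∈ U, ∑' n, g n * fourier n η = 0) →
    ∑' n, g n * a n = 0

/-- The supremum of `|∑_{h ≤ H} a(h) u(n + h)|` over all sequences `a : ℤ → ℂ` of absolute value at
most one with spectrum in `K`. -/
noncomputable def bandSup (K : Set UnitAddCircle) (u : ℕ → ℤ) (n H : ℕ) : ℝ :=
  ⨆ a : {a : ℤ → ℂ // (∀ m, ‖a m‖ ≤ 1) ∧ SpectrumIn K a},
    ‖∑ h ∈ Icc 1 H, a.1 h * (u (n + h) : ℂ)‖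

/-- The supremum of `|∑_{h ≤ H} f(x + (h + n) g) u(n + h)|` over all rotations `g` in `G` and all
starting points `x` of the torus. -/
noncomputable def windowSup {d : ℕ} (G : Set (Fin d → UnitAddCircle))
    (f : C(Fin d → UnitAddCircle, ℂ)) (u : ℕ → ℤ) (n H : ℕ) : ℝ :=
  ⨆ p : G × (Fin d → UnitAddCircle), ‖∑ h ∈ Icc 1 H,
    f (p.2 + (h + n) • (p.1 : Fin d → UnitAddCircle)) * (u (n + h) : ℂ)‖

/-- The measure of the image of `G` under the character `g ↦ k₁ g₁ + … + k_d g_d`. -/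
noncomputable def projMeasure {d : ℕ} (G : Set (Fin d → UnitAddCircle)) (k : Fin d → ℤ) : ℝ :=
  (MeasureTheory.volume ((fun g : Fin d → UnitAddCircle => ∑ i, k i • g i) '' G)).toReal

theorem eps {E : Set ℕ} (h : LogDensityZero E) [DecidablePred (· ∈ E)] (ε : ℝ) (hε : 0 < ε) :
    ∃ X₀ : ℕ, ∀ X : ℕ, X₀ ≤ X →
      ∑ n ∈ Icc 1 X, (if n ∈ E then (1 : ℝ) / n else 0) ≤ ε * Real.log X := by
  obtain ⟨X₁, h1⟩ := eventually_atTop.1 (h.eventually_lt_const hε)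
  refine ⟨max X₁ 2, fun X hX => ?_⟩
  have h2 := h1 X (le_trans (le_max_left _ _) hX)
  have h3 : (1 : ℝ) < X := by
    have : 2 ≤ X := le_trans (le_max_right _ _) hX
    exact_mod_cast (by omega : 1 < X)
  rw [div_lt_iff₀ (Real.log_pos h3)] at h2
  refine le_trans (le_of_eq ?_) h2.le
  refine Finset.sum_congr rfl fun n _ => ?_
  by_cases hn : n ∈ E
  · rw [if_pos hn, if_pos hn]
  · rw [if_neg hn, if_neg hn]

/-- **Theorem.** There is one set `E` of logarithmic density zero such that for `u = λ`, `ρ = 1` and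
for `u = μ`, `ρ = 6/π²`:

(1) for all closed sets `K` of the circle and all `ε > 0` there is `H₀` such that for all `H ≥ H₀`
and all large `N` (depending on `H`), with `S(n)` the supremum of `|∑_{h ≤ H} a(h) u(n + h)|` over
all `a : ℤ → ℂ` with `|a| ≤ 1` and spectrum in `K`, `∑_{n ≤ N} S(n) ≤ (√(ρ |K|) + ε) H N` if
`N ∉ E`, and `∑_{n ≤ N} S(n)/n ≤ (√(ρ |K|) + ε) H log N` in any case;

(2) for all `d`, closed sets `G` of rotations of the torus `ℝ^d/ℤ^d`, continuous `f` and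
trigonometric polynomials `∑_{k ∈ F} c_k e(k x)` within `τ` of `f`, the same holds for the supremum
`S(n)` of `|∑_{h ≤ H} f(x + (h + n) g) u(n + h)|` over all `g ∈ G` and all `x`, with the bounds
`(∑_{k ∈ F} |c_k| √(ρ |k G|) + τ + ε) H N` and `(∑_{k ∈ F} |c_k| √(ρ |k G|) + τ + ε) H log N`. -/
theorem result : ∃ E : Set ℕ, LogDensityZero E ∧ ∀ (u : ℕ → ℤ) (ρ : ℝ),
    (u = (fun n => ArithmeticFunction.moebius n) ∧ ρ = 6 / Real.pi ^ 2 ∨
      u = (fun n => (-1) ^ ArithmeticFunction.cardFactors n) ∧ ρ = 1) →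
    (∀ K : Set UnitAddCircle, IsClosed K → ∀ ε : ℝ, 0 < ε → ∃ H₀ : ℕ, ∀ H : ℕ, H₀ ≤ H →
      ∃ N₀ : ℕ, ∀ N : ℕ, N₀ ≤ N →
        (N ∉ E → ∑ n ∈ Icc 1 N, bandSup K u n H ≤
          (Real.sqrt (ρ * (MeasureTheory.volume K).toReal) + ε) * (H * N)) ∧
        ∑ n ∈ Icc 1 N, (1 / (n : ℝ)) * bandSup K u n H ≤
          (Real.sqrt (ρ * (MeasureTheory.volume K).toReal) + ε) * (H * Real.log N)) ∧
    (∀ (d : ℕ) (G : Set (Fin d → UnitAddCircle)), IsClosed G →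
      ∀ (f : C(Fin d → UnitAddCircle, ℂ)) (F : Finset (Fin d → ℤ)) (c : (Fin d → ℤ) → ℂ) (τ : ℝ),
      (∀ x, ‖f x - ∑ k ∈ F, c k * UnitAddTorus.mFourier k x‖ ≤ τ) →
      ∀ ε : ℝ, 0 < ε → ∃ H₀ : ℕ, ∀ H : ℕ, H₀ ≤ H → ∃ N₀ : ℕ, ∀ N : ℕ, N₀ ≤ N →
        (N ∉ E → ∑ n ∈ Icc 1 N, windowSup G f u n H ≤
          (∑ k ∈ F, ‖c k‖ * Real.sqrt (ρ * projMeasure G k) + τ + ε) * (H * N)) ∧
        ∑ n ∈ Icc 1 N, (1 / (n : ℝ)) * windowSup G f u n H ≤
          (∑ k ∈ F, ‖c k‖ * Real.sqrt (ρ * projMeasure G k) + τ + ε) * (H * Real.log N)) := by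
  classical
  obtain ⟨E₁, hE₁, h1⟩ := Pool.Agent.Y842.PH.one_E (Pool.Agent.Y304.U.avc Pool.Agent.Y304.U.pw)
    Pool.Agent.TH823.MRS.mob Pool.Agent.TH823.MRS.mob_bdd Pool.Agent.TH823.MRS.mob_flip
    Pool.Agent.TH823.MRS.expo_mob
  obtain ⟨E₂, hE₂, h2⟩ := Pool.Agent.Y842.PH.one_E (Pool.Agent.Y304.U.avc Pool.Agent.Y304.U.pw)
    Pool.Agent.H376R2.MR.lam Pool.Agent.Y842.EL.abs_lam Pool.Agent.TH823.MRS.lam_flip
    Pool.Agent.TH823.MRS.expo_lam
  have hE : LogDensityZero (E₁ ∪ E₂) := Pool.Agent.Y842.EL.LZ_union hE₁ hE₂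
  refine ⟨E₁ ∪ E₂, hE, ?_⟩
  have conv : ∀ (g : ℕ → ℤ) (h N : ℕ) (ε : ℝ), ‖Pool.Agent.Y842.PH.Cr g h N 0‖ ≤ ε →
      |∑ k ∈ range N, ((g k * g (k + h) : ℤ) : ℝ)| ≤ ε := by
    intro g h N ε hh
    refine le_trans (le_of_eq ?_) hh
    unfold Pool.Agent.Y842.PH.Cr
    have e1 : ∑ k ∈ range N, ((g k : ℂ) * g (k + h)) * Pool.Agent.Helper602.MK.ee (0 * k) =
        ((∑ k ∈ range N, ((g k * g (k + h) : ℤ) : ℝ) : ℝ) : ℂ) := by
      push_cast
      refine Finset.sum_congr rfl fun k _ => ?_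
      rw [zero_mul]
      unfold Pool.Agent.Helper602.MK.ee
      simp
    rw [e1, Complex.norm_real, Real.norm_eq_abs]
  intro u ρ hu
  have hpi : 6 / Real.pi ^ 2 ≤ 1 := by
    rw [div_le_one (by positivity)]
    nlinarith [Real.pi_gt_three]
  have hu1 : ∀ n, |u n| ≤ 1 := by
    rcases hu with ⟨rfl, _⟩ | ⟨rfl, _⟩
    · exact Pool.Agent.TH823.MRS.mob_bdd
    · exact Pool.Agent.Y842.EL.abs_lam
  have hρ0 : 0 ≤ ρ := by
    rcases hu with ⟨_, rfl⟩ | ⟨_, rfl⟩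
    · positivity
    · norm_num
  have hρ1 : ρ ≤ 1 := by
    rcases hu with ⟨_, rfl⟩ | ⟨_, rfl⟩
    · exact hpi
    · norm_num
  have hρ : Pool.Agent.Q40.PM.MS u ρ := by
    rcases hu with ⟨rfl, rfl⟩ | ⟨rfl, rfl⟩
    · exact Pool.Agent.Q40.PM.ms_mob
    · exact Pool.Agent.Q40.PM.ms_one Pool.Agent.Y842.EL.abs_lam
  have hSm : Pool.Agent.Q158.Lin.Sm u (E₁ ∪ E₂) := by
    rcases hu with ⟨rfl, _⟩ | ⟨rfl, _⟩
    · intro h hh ε hε
      obtain ⟨N₀, h3⟩ := h1 h hh ε hε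
      exact ⟨N₀, fun N hN hNE => conv _ h N _ (h3 N hN (fun h4 => hNE (Or.inl h4)) 0)⟩
    · intro h hh ε hε
      obtain ⟨N₀, h3⟩ := h2 h hh ε hε
      exact ⟨N₀, fun N hN hNE => conv _ h N _ (h3 N hN (fun h4 => hNE (Or.inr h4)) 0)⟩
  -- from natural averages to both averages
  have both : ∀ (A : ℕ → ℕ → ℝ) (B κ : ℝ), (∀ H n, 0 ≤ A H n) → (∀ H n, A H n ≤ H * B) → 0 ≤ κ →
      (∀ ε : ℝ, 0 < ε → ∃ H₀ : ℕ, ∀ H : ℕ, H₀ ≤ H → ∃ N₀ : ℕ, ∀ N : ℕ, N₀ ≤ N →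
        N ∉ E₁ ∪ E₂ → ∑ n ∈ Icc 1 N, A H n ≤ (κ + ε) * (H * N)) →
      ∀ ε : ℝ, 0 < ε → ∃ H₀ : ℕ, ∀ H : ℕ, H₀ ≤ H → ∃ N₀ : ℕ, ∀ N : ℕ, N₀ ≤ N →
        (N ∉ E₁ ∪ E₂ → ∑ n ∈ Icc 1 N, A H n ≤ (κ + ε) * (H * N)) ∧
        ∑ n ∈ Icc 1 N, (1 / (n : ℝ)) * A H n ≤ (κ + ε) * (H * Real.log N) := by
    intro A B κ hA hAB hκ h ε hε
    obtain ⟨H₀, h3⟩ := h (ε / 2) (by positivity)
    refine ⟨max H₀ 1, fun H hH => ?_⟩
    obtain ⟨N₀, h4⟩ := h3 H (le_trans (le_max_left _ _) hH)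
    have hH0 : (0 : ℝ) < H := by
      have : 1 ≤ H := le_trans (le_max_right _ _) hH
      exact_mod_cast (by omega : 0 < H)
    obtain ⟨N₁, h5⟩ := Pool.Agent.Q40.PM.log_of_nat (fun n => A H n) (hA H) (H * B) (hAB H)
      (E₁ ∪ E₂) (fun δ hδ => eps hE δ hδ) ((κ + ε / 2) * H) (ε / 2 * H) (by positivity)
      (by positivity) N₀ (fun N hN hNE => by
        refine (h4 N hN hNE).trans (le_of_eq ?_)
        ring)
    refine ⟨max N₀ N₁, fun N hN => ⟨fun hNE => ?_, ?_⟩⟩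
    · refine (h4 N (le_trans (le_max_left _ _) hN) hNE).trans ?_
      have : (0 : ℝ) ≤ H * N := by positivity
      nlinarith
    · refine (h5 N (le_trans (le_max_right _ _) hN)).trans (le_of_eq ?_)
      ring
  refine ⟨fun K hK => ?_, fun d G hG f F c τ hτ => ?_⟩
  · refine both (fun H n => bandSup K u n H) 1 _
      (fun H n => Pool.Agent.Q40.PM.W_nonneg K u n H)
      (fun H n => (Pool.Agent.Q40.PM.W_bdd (K := K) hu1 n H).trans (le_of_eq (mul_one _).symm))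
      (Real.sqrt_nonneg _)
      (fun ε hε => Pool.Agent.Q40.PM.long hu1 hSm hρ0 hρ1 hρ K hK ε hε)
  · have hτ0 : 0 ≤ τ := (norm_nonneg _).trans (hτ 0)
    have h0 : 0 ≤ ∑ k ∈ F, ‖c k‖ * Real.sqrt (ρ * projMeasure G k) + τ :=
      add_nonneg (Finset.sum_nonneg fun k _ =>
        mul_nonneg (norm_nonneg _) (Real.sqrt_nonneg _)) hτ0
    exact both (fun H n => windowSup G f u n H) ‖f‖ _
      (fun H n => Pool.Agent.Q158.Tor.windowSup_nonneg G f u n H)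
      (fun H n => Pool.Agent.Q158.Tor.windowSup_bdd G f u hu1 n H) h0
      (fun ε hε => Pool.Agent.Q40.PM.nat_est hu1 hSm hρ0 hρ1 hρ G hG f F c τ hτ ε hε)

end Pool.Agent.Results.MP_663568_nt.FrequencySetsOfPositiveMeasure
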