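import Pool.Agent.Y842.PH.Tri
import Pool.Agent.Y304.U.Avc
import Pool.Agent.Y304.U.Pw
import Pool.Agent.TH823.MRS.Fun
import Pool.Agent.Y842.EL.One
import Pool.Agent.Q158.TorA

/-!
# Short-interval Möbius disjointness on tori for rotations in closed null sets

The supremum over all rotations `g` of a closed set `G` of the torus `ℝ^d/ℤ^d` is taken inside the
average over the short intervals. The only hypothesis on `G` is that its image under each nontrivial
character is a Lebesgue null set; for `d = 1` this says that the frequencies run through an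
arbitrary closed null set, of any dimension.
-/

set_option autoImplicit false

open Finset Filter

namespace Pool.Agent.Results.MP_663568_nt.NullFrequencySets

open Classical in
/-- `E` has logarithmic density zero -/
def LogDensityZero (E : Set ℕ) : Prop := Tendsto
  (fun X : ℕ => (∑ n ∈ Icc 1 X, if n ∈ E then (1 : ℝ) / n else 0) / Real.log X) atTop (nhds 0)

/-- The image of the set `G` of points of the torus `ℝ^d/ℤ^d` under each nontrivial character
`g ↦ k₁ g₁ + … + k_d g_d` is a null set of the circle. -/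
def NullProjections {d : ℕ} (G : Set (Fin d → UnitAddCircle)) : Prop :=
  ∀ k : Fin d → ℤ, k ≠ 0 →
    MeasureTheory.volume ((fun g : Fin d → UnitAddCircle => ∑ i, k i • g i) '' G) = 0

/-- The supremum of `|∑_{h ≤ H} f(x + (h + n) g) u(n + h)|` over all rotations `g` in `G` and all
starting points `x` of the torus. -/
noncomputable def windowSup {d : ℕ} (G : Set (Fin d → UnitAddCircle))
    (f : C(Fin d → UnitAddCircle, ℂ)) (u : ℕ → ℤ) (n H : ℕ) : ℝ :=
  ⨆ p : G × (Fin d → UnitAddCircle), ‖∑ h ∈ Icc 1 H,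
    f (p.2 + (h + n) • (p.1 : Fin d → UnitAddCircle)) * (u (n + h) : ℂ)‖

theorem eps {E : Set ℕ} (h : LogDensityZero E) [DecidablePred (· ∈ E)] (ε : ℝ) (hε : 0 < ε) :
    ∃ X₀ : ℕ, ∀ X : ℕ, X₀ ≤ X →
      ∑ n ∈ Icc 1 X, (if n ∈ E then (1 : ℝ) / n else 0) ≤ ε * Real.log X := by
  obtain ⟨X₁, h1⟩ := eventually_atTop.1 (h.eventually_lt_const hε)
  refine ⟨max X₁ 2, fun X hX => ?_⟩
  have h2 := h1 X (le_trans (le_max_left _ _) hX)
  have h3 : (1 : ℝ) < X := by
    have : 2 ≤ X := le_trans (le_max_right _ _) hX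
    exact_mod_cast (by omega : 1 < X)
  rw [div_lt_iff₀ (Real.log_pos h3)] at h2
  refine le_trans (le_of_eq ?_) h2.le
  refine Finset.sum_congr rfl fun n _ => ?_
  by_cases hn : n ∈ E
  · rw [if_pos hn, if_pos hn]
  · rw [if_neg hn, if_neg hn]

/-- **Theorem.** There is one set `E` of logarithmic density zero such that the following holds for
`u = μ` and `u = λ`, all `d`, all closed sets `G` of rotations of the torus `ℝ^d/ℤ^d` with null
projections and all continuous functions `f` on the torus: for each `ε > 0` there is `H₀` such that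
for all `H ≥ H₀` and all large `N` (depending on `H`)
`∑_{n ≤ N} sup_{g ∈ G, x} |∑_{h ≤ H} f(x + (h + n) g) u(n + h)| ≤ ε H N` if `N ∉ E`, and
`∑_{n ≤ N} (1/n) sup_{g ∈ G, x} |∑_{h ≤ H} f(x + (h + n) g) u(n + h)| ≤ ε H log N` in any case. -/
theorem result : ∃ E : Set ℕ, LogDensityZero E ∧ ∀ u : ℕ → ℤ,
    (u = (fun n => ArithmeticFunction.moebius n) ∨
      u = (fun n => (-1) ^ ArithmeticFunction.cardFactors n)) →
    ∀ (d : ℕ) (G : Set (Fin d → UnitAddCircle)), IsClosed G → NullProjections G →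
    ∀ f : C(Fin d → UnitAddCircle, ℂ), ∀ ε : ℝ, 0 < ε → ∃ H₀ : ℕ, ∀ H : ℕ, H₀ ≤ H →
    ∃ N₀ : ℕ, ∀ N : ℕ, N₀ ≤ N →
      (N ∉ E → ∑ n ∈ Icc 1 N, windowSup G f u n H ≤ ε * (H * N)) ∧
      ∑ n ∈ Icc 1 N, (1 / (n : ℝ)) * windowSup G f u n H ≤ ε * (H * Real.log N) := by
  classical
  obtain ⟨E₁, hE₁, h1⟩ := Pool.Agent.Y842.PH.one_E (Pool.Agent.Y304.U.avc Pool.Agent.Y304.U.pw)
    Pool.Agent.TH823.MRS.mob Pool.Agent.TH823.MRS.mob_bdd Pool.Agent.TH823.MRS.mob_flip
    Pool.Agent.TH823.MRS.expo_mob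
  obtain ⟨E₂, hE₂, h2⟩ := Pool.Agent.Y842.PH.one_E (Pool.Agent.Y304.U.avc Pool.Agent.Y304.U.pw)
    Pool.Agent.H376R2.MR.lam Pool.Agent.Y842.EL.abs_lam Pool.Agent.TH823.MRS.lam_flip
    Pool.Agent.TH823.MRS.expo_lam
  have hE : LogDensityZero (E₁ ∪ E₂) := Pool.Agent.Y842.EL.LZ_union hE₁ hE₂
  refine ⟨E₁ ∪ E₂, hE, ?_⟩
  have conv : ∀ (g : ℕ → ℤ) (h N : ℕ) (ε : ℝ), ‖Pool.Agent.Y842.PH.Cr g h N 0‖ ≤ ε →
      |∑ k ∈ range N, ((g k * g (k + h) : ℤ) : ℝ)| ≤ ε := by
    intro g h N ε hh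
    refine le_trans (le_of_eq ?_) hh
    unfold Pool.Agent.Y842.PH.Cr
    have e1 : ∑ k ∈ range N, ((g k : ℂ) * g (k + h)) * Pool.Agent.Helper602.MK.ee (0 * k) =
        ((∑ k ∈ range N, ((g k * g (k + h) : ℤ) : ℝ) : ℝ) : ℂ) := by
      push_cast
      refine Finset.sum_congr rfl fun k _ => ?_
      rw [zero_mul]
      unfold Pool.Agent.Helper602.MK.ee
      simp
    rw [e1, Complex.norm_real, Real.norm_eq_abs]
  intro u hu d G hG hGN f ε hε
  have hu1 : ∀ n, |u n| ≤ 1 := by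
    rcases hu with rfl | rfl
    · exact Pool.Agent.TH823.MRS.mob_bdd
    · exact Pool.Agent.Y842.EL.abs_lam
  have hSm : Pool.Agent.Q158.Lin.Sm u (E₁ ∪ E₂) := by
    rcases hu with rfl | rfl
    · intro h hh ε hε
      obtain ⟨N₀, h3⟩ := h1 h hh ε hε
      exact ⟨N₀, fun N hN hNE => conv _ h N _ (h3 N hN (fun h4 => hNE (Or.inl h4)) 0)⟩
    · intro h hh ε hε
      obtain ⟨N₀, h3⟩ := h2 h hh ε hε
      exact ⟨N₀, fun N hN hNE => conv _ h N _ (h3 N hN (fun h4 => hNE (Or.inr h4)) 0)⟩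
  obtain ⟨H₀, h3⟩ := Pool.Agent.Q158.Tor.nat_avg hu1 hSm G hG hGN f (ε / 2) (by positivity)
  refine ⟨max H₀ 1, fun H hH => ?_⟩
  obtain ⟨N₀, h4⟩ := h3 H (le_trans (le_max_left _ _) hH)
  have hH0 : (0 : ℝ) < H := by
    have : 1 ≤ H := le_trans (le_max_right _ _) hH
    exact_mod_cast (by omega : 0 < H)
  obtain ⟨N₁, h5⟩ := Pool.Agent.Q158.Tor.log_of_nat (fun n => windowSup G f u n H)
    (fun n => Pool.Agent.Q158.Tor.windowSup_nonneg G f u n H) (H * ‖f‖)
    (fun n => Pool.Agent.Q158.Tor.windowSup_bdd G f u hu1 n H) (E₁ ∪ E₂) (fun δ hδ => eps hE δ hδ)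
    (ε / 2 * H) (by positivity) N₀ (fun N hN hNE => by
      refine (h4 N hN hNE).trans (le_of_eq ?_)
      ring)
  refine ⟨max N₀ N₁, fun N hN => ⟨fun hNE => ?_, ?_⟩⟩
  · refine (h4 N (le_trans (le_max_left _ _) hN) hNE).trans ?_
    have : (0 : ℝ) ≤ H * N := by positivity
    nlinarith
  · refine (h5 N (le_trans (le_max_right _ _) hN)).trans (le_of_eq ?_)
    ring

end Pool.Agent.Results.MP_663568_nt.NullFrequencySets
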