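import Pool.Agent.Q42.PP.Fin

/-!
# Polynomial phases in short windows, uniformly: the constant 2/pi

For the Liouville function and the Moebius function, the supremum over all real polynomials of bounded degree
of the correlation with a periodic function of the polynomial in a window of length H is, on average over the windows,
at most a constant times H; for the exponential function the constant is 2/pi times the density of the support.
-/

set_option autoImplicit false

namespace Pool.Agent.Results.MP_663568_nt.PolynomialPhases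

open Finset Polynomial

/-- the Liouville function -/
noncomputable def liouville (n : ℕ) : ℝ := (-1) ^ (ArithmeticFunction.cardFactors n)

/-- the Moebius function -/
noncomputable def moebius (n : ℕ) : ℝ := ((ArithmeticFunction.moebius n : ℤ) : ℝ)

/-- `u` is the Liouville function and `ρ = 1`, or `u` is the Moebius function and `ρ = 6 / π ^ 2` -/
def Pair (u : ℕ → ℝ) (ρ : ℝ) : Prop := (u = liouville ∧ ρ = 1) ∨ (u = moebius ∧ ρ = 6 / Real.pi ^ 2)

/-- `e(x) = exp(2πix)` -/
noncomputable def e (x : ℝ) : ℂ := Complex.exp (2 * Real.pi * Complex.I * x)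

/-- the supremum over all real polynomials `P` of degree at most `d` of the absolute value of the sum of
`u(n + h) f(P(h))` over `1 ≤ h ≤ H` -/
noncomputable def S (u : ℕ → ℝ) (f : ℝ → ℂ) (d H n : ℕ) : ℝ :=
  ⨆ P : {P : ℝ[X] // P.natDegree ≤ d}, ‖∑ h ∈ Icc 1 H, (u (n + h) : ℂ) * f (P.1.eval (h : ℝ))‖

/-- the supremum over real `t` of the mean over `[0,1]` of `|Re(e(t) g(x))|` -/
noncomputable def K (g : ℝ → ℂ) : ℝ := ⨆ t : ℝ, ∫ x in (0 : ℝ)..1, |(e t * g x).re|

lemma e_eq : e = Pool.Agent.Helper602.MK.ee := by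
  funext x
  unfold e Pool.Agent.Helper602.MK.ee
  congr 1
  ring

lemma K_eq (g : ℝ → ℂ) : K g = Pool.Agent.Q42.PP.cst g := by
  unfold K Pool.Agent.Q42.PP.cst Pool.Agent.Q42.PP.gd
  rw [e_eq]

theorem result :
    (∀ (u : ℕ → ℝ) (ρ : ℝ), Pair u ρ → ∀ (d : ℕ) (f : ℝ → ℂ), Continuous f → Function.Periodic f 1 →
      ∀ (m : ℂ) (ε : ℝ), 0 < ε → ∃ H₀ : ℕ, ∀ H : ℕ, H₀ ≤ H →
        (∀ N : ℕ, ∑ n ∈ Icc 1 N, S u f d H n ≤ (ρ * K (fun x => f x - m) + ε) * H * N) ∧
        (∀ N : ℕ, H ≤ N → ∑ n ∈ Icc 1 N, S u f d H n / n ≤ (ρ * K (fun x => f x - m) + ε) * H * Real.log N)) ∧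
    K e = 2 / Real.pi := by
  constructor
  · intro u ρ hu d f hf hp m ε hε
    rw [K_eq]
    rcases hu with ⟨h1, h2⟩ | ⟨h1, h2⟩
    · have hl : u = Pool.Agent.Q42.PP.liou := h1
      rw [hl, h2]
      exact Pool.Agent.Q42.PP.main_log _ 1 zero_le_one Pool.Agent.Q42.PP.data_liou (fun n => by
        unfold Pool.Agent.Q42.PP.liou
        rw [abs_pow, abs_neg, abs_one, one_pow]) d f hf hp m ε hε
    · have hl : u = Pool.Agent.Q42.RS.mu := h1
      rw [hl, h2]
      exact Pool.Agent.Q42.PP.main_log _ (6 / Real.pi ^ 2) (by positivity) Pool.Agent.Q42.PP.data_mu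
        Pool.Agent.Q42.RS.mu_abs d f hf hp m ε hε
  · rw [K_eq, e_eq]
    exact Pool.Agent.Q42.PP.cst_ee

end Pool.Agent.Results.MP_663568_nt.PolynomialPhases
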